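import Pool.Agent.Q119.Gener.Alg

set_option autoImplicit false

/-!
For the generic countable group the rational group algebra is semiprimitive.
-/

namespace Pool.Agent.Results.MP_146d92_al.Generic

open Pool.Agent.Q119.Gener Topology

/-- A binary operation on the natural numbers defines a group. -/
def IsGroupOp (m : ℕ → ℕ → ℕ) : Prop :=
  (∀ a b c, m (m a b) c = m a (m b c)) ∧
    ∃ e, (∀ a, m e a = a ∧ m a e = a) ∧ ∀ a, ∃ b, m a b = e ∧ m b a = e

/-- The space of the groups with universe `ℕ`, with the topology inherited from the product of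
discrete spaces. -/
abbrev GroupSpace : Type := {m : ℕ → ℕ → ℕ // IsGroupOp m}

/-- The set of natural numbers with the group operation `m`. -/
def Gp (_m : GroupSpace) : Type := ℕ

/-- The group defined by a point of the space. -/
noncomputable instance (m : GroupSpace) : Group (Gp m) where
  mul a b := m.1 a b
  one := m.2.2.choose
  inv a := (m.2.2.choose_spec.2 a).choose
  mul_assoc := m.2.1
  one_mul a := (m.2.2.choose_spec.1 a).1
  mul_one a := (m.2.2.choose_spec.1 a).2
  inv_mul_cancel a := (m.2.2.choose_spec.2 a).choose_spec.2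

theorem mul_eq (m : GroupSpace) (a b : Gp m) : a * b = m.1 a b := rfl

/-- The element of the group algebra with given coefficients. -/
noncomputable def up (m : GroupSpace) (f : ℕ →₀ ℚ) : MonoidAlgebra ℚ (Gp m) :=
  MonoidAlgebra.ofCoeff f

/-- The coefficients of an element of the group algebra. -/
noncomputable def dn (m : GroupSpace) (x : MonoidAlgebra ℚ (Gp m)) : ℕ →₀ ℚ := x.coeff

theorem up_dn (m : GroupSpace) (x : MonoidAlgebra ℚ (Gp m)) : up m (dn m x) = x := rfl
theorem dn_up (m : GroupSpace) (f : ℕ →₀ ℚ) : dn m (up m f) = f := rfl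
theorem up_sub (m : GroupSpace) (f g : ℕ →₀ ℚ) : up m (f - g) = up m f - up m g := rfl
theorem dn_sub (m : GroupSpace) (x y : MonoidAlgebra ℚ (Gp m)) :
    dn m (x - y) = dn m x - dn m y := rfl
theorem up_injective (m : GroupSpace) : Function.Injective (up m) := fun _ _ h =>
  congrArg (dn m) h

/-- A natural number as an element of the group. -/
def el (m : GroupSpace) (a : ℕ) : Gp m := a

theorem up_eq_sum (m : GroupSpace) (f : ℕ →₀ ℚ) :
    up m f = ∑ a ∈ f.support, MonoidAlgebra.single (el m a) (f a) :=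
  (MonoidAlgebra.sum_coeff_single (up m f)).symm

/-- The coefficients of a product. -/
noncomputable def prod (m : GroupSpace) (f g : ℕ →₀ ℚ) : ℕ →₀ ℚ :=
  f.sum fun a r => g.sum fun b s => Finsupp.single (m.1 a b) (r * s)

theorem up_mul (m : GroupSpace) (f g : ℕ →₀ ℚ) : up m f * up m g = up m (prod m f g) := by
  have h := MonoidAlgebra.mul_def (up m f) (up m g)
  rw [h]
  apply MonoidAlgebra.coeff_injective
  simp only [Finsupp.sum, MonoidAlgebra.coeff_sum, MonoidAlgebra.coeff_single]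
  rfl

theorem prod_congr {m m' : GroupSpace} {f g : ℕ →₀ ℚ}
    (h : ∀ a ∈ f.support, ∀ b ∈ g.support, m.1 a b = m'.1 a b) : prod m f g = prod m' f g := by
  unfold prod
  refine Finsupp.sum_congr fun a ha => ?_
  refine Finsupp.sum_congr fun b hb => ?_
  rw [h a ha b hb]

theorem eventually_eq (m0 : GroupSpace) (a b : ℕ) : ∀ᶠ m in 𝓝 m0, m.1 a b = m0.1 a b := by
  have hc : Continuous (fun m : GroupSpace => m.1 a b) :=
    (continuous_apply b).comp ((continuous_apply a).comp continuous_subtype_val)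
  exact (hc.isOpen_preimage {m0.1 a b} (isOpen_discrete _)).mem_nhds rfl

theorem eventually_prod (m0 : GroupSpace) (f g : ℕ →₀ ℚ) :
    ∀ᶠ m in 𝓝 m0, prod m f g = prod m0 f g := by
  have h1 : ∀ᶠ m in 𝓝 m0, ∀ a ∈ f.support, ∀ b ∈ g.support, m.1 a b = m0.1 a b := by
    rw [Filter.eventually_all_finset]
    intro a _
    rw [Filter.eventually_all_finset]
    intro b _
    exact eventually_eq m0 a b
  filter_upwards [h1] with m hm
  exact prod_congr hm

theorem eventually_gen (α : ℕ →₀ ℚ) (m0 : GroupSpace) {x : MonoidAlgebra ℚ (Gp m0)}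
    (h : Gen (up m0 α) x) : ∀ᶠ m in 𝓝 m0, Gen (up m α) (up m (dn m0 x)) := by
  induction h with
  | base => exact Filter.Eventually.of_forall fun m => Gen.base
  | sub _ _ h1 h2 =>
    filter_upwards [h1, h2] with m hm1 hm2
    rw [dn_sub, up_sub]
    exact Gen.sub hm1 hm2
  | @left x r _ h1 =>
    filter_upwards [h1, eventually_prod m0 (dn m0 r) (dn m0 x)] with m hm1 hm2
    have h3 : dn m0 (r * x) = prod m0 (dn m0 r) (dn m0 x) :=
      congrArg (dn m0) (up_mul m0 (dn m0 r) (dn m0 x))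
    rw [h3, ← hm2, ← up_mul]
    exact Gen.left _ hm1
  | @right x r _ h1 =>
    filter_upwards [h1, eventually_prod m0 (dn m0 x) (dn m0 r)] with m hm1 hm2
    have h3 : dn m0 (x * r) = prod m0 (dn m0 x) (dn m0 r) :=
      congrArg (dn m0) (up_mul m0 (dn m0 x) (dn m0 r))
    rw [h3, ← hm2, ← up_mul]
    exact Gen.right _ hm1

/-- The groups for which the ideal generated by `α` contains an element with a nonzero right
fixed element. -/
def U (α : ℕ →₀ ℚ) : Set GroupSpace :=
  {m | ∃ δ γ : MonoidAlgebra ℚ (Gp m), γ ≠ 0 ∧ Gen (up m α) δ ∧ δ * γ = γ}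

theorem isOpen_U (α : ℕ →₀ ℚ) : IsOpen (U α) := by
  rw [isOpen_iff_mem_nhds]
  rintro m0 ⟨δ, γ, hγ, hδ, hδγ⟩
  filter_upwards [eventually_gen α m0 hδ, eventually_prod m0 (dn m0 δ) (dn m0 γ)] with m h1 h2
  refine ⟨up m (dn m0 δ), up m (dn m0 γ), ?_, h1, ?_⟩
  · intro h
    apply hγ
    have h3 : dn m0 γ = 0 := up_injective m h
    rw [← up_dn m0 γ, h3]
    rfl
  · rw [up_mul, h2]
    have h3 : prod m0 (dn m0 δ) (dn m0 γ) = dn m0 γ := by
      have := congrArg (dn m0) (up_mul m0 (dn m0 δ) (dn m0 γ))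
      rw [dn_up, up_dn, up_dn, hδγ] at this
      exact this.symm
    rw [h3]

theorem exists_finset {V : Set GroupSpace} (hV : IsOpen V) {m0 : GroupSpace} (h0 : m0 ∈ V) :
    ∃ F : Finset ℕ, ∀ m : GroupSpace, (∀ a ∈ F, ∀ b ∈ F, m.1 a b = m0.1 a b) → m ∈ V := by
  classical
  obtain ⟨O, hO, rfl⟩ := isOpen_induced_iff.1 hV
  obtain ⟨I, u, hu, hIu⟩ := isOpen_pi_iff.1 hO m0.1 h0
  have h1 : ∀ a ∈ I, ∃ J : Finset ℕ, ∀ f : ℕ → ℕ, (∀ b ∈ J, f b = m0.1 a b) → f ∈ u a := by
    intro a ha
    obtain ⟨J, v, hv, hJv⟩ := isOpen_pi_iff.1 (hu a ha).1 _ (hu a ha).2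
    refine ⟨J, fun f hf => hJv fun b hb => ?_⟩
    rw [hf b hb]
    exact (hv b hb).2
  choose! J hJ using h1
  refine ⟨I ∪ I.biUnion J, fun m hm => hIu fun a ha => ?_⟩
  apply hJ a ha
  intro b hb
  exact hm a (Finset.mem_union_left _ ha) b
    (Finset.mem_union_right _ (Finset.mem_biUnion.2 ⟨a, ha, hb⟩))

/-- A finite partial injection between countably infinite sets extends to a bijection. -/
theorem exists_equiv {H : Type} [Countable H] [Infinite H] (F : Finset ℕ) (i : ℕ → H)
    (hi : Function.Injective i) : ∃ θ : ℕ ≃ H, ∀ a ∈ F, θ a = i a := by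
  classical
  let p : ℕ → Prop := fun a => a ∈ F
  let q : H → Prop := fun h => h ∈ F.image i
  let e1 : {a // p a} ≃ {h // q h} :=
    Equiv.ofBijective (fun a => ⟨i a.1, Finset.mem_image_of_mem i a.2⟩) (by
      constructor
      · intro a b hab
        exact Subtype.ext (hi (congrArg Subtype.val hab))
      · rintro ⟨h, hh⟩
        obtain ⟨a, ha, rfl⟩ := Finset.mem_image.1 hh
        exact ⟨⟨a, ha⟩, rfl⟩)
  have inf1 : Infinite {a // ¬ p a} := by
    have : (F : Set ℕ)ᶜ.Infinite := F.finite_toSet.infinite_compl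
    exact this.to_subtype
  have inf2 : Infinite {h // ¬ q h} := by
    have : ((F.image i : Finset H) : Set H)ᶜ.Infinite := (F.image i).finite_toSet.infinite_compl
    exact this.to_subtype
  obtain ⟨e2⟩ : Nonempty ({a // ¬ p a} ≃ {h // ¬ q h}) := nonempty_equiv_of_countable
  refine ⟨(Equiv.sumCompl p).symm.trans ((Equiv.sumCongr e1 e2).trans (Equiv.sumCompl q)), ?_⟩
  intro a ha
  have : (Equiv.sumCompl p).symm a = Sum.inl ⟨a, ha⟩ :=
    Equiv.sumCompl_symm_apply_of_pos (show p a from ha)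
  simp only [Equiv.trans_apply, this, Equiv.sumCongr_apply, Sum.map_inl]
  rfl

theorem dense_U {α : ℕ →₀ ℚ} (hα : α ≠ 0) : Dense (U α) := by
  classical
  rw [dense_iff_inter_open]
  rintro V hV ⟨m0, hm0⟩
  obtain ⟨F, hF⟩ := exists_finset hV hm0
  have : Countable (Gp m0) := inferInstanceAs (Countable ℕ)
  have : Infinite (Gp m0) := inferInstanceAs (Infinite ℕ)
  have hα0 : up m0 α ≠ 0 := fun h => hα (up_injective m0 h)
  obtain ⟨δ, γ, hγ, hδ, hδγ⟩ := exists_gen (up m0 α) hα0
  have : Infinite (HH (Gp m0)) := Infinite.of_injective _ (emb_injective (G := Gp m0))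
  let i : ℕ → HH (Gp m0) := fun a => emb (Gp m0) (a : Gp m0)
  have hi : Function.Injective i := fun a b hab => emb_injective (G := Gp m0) hab
  obtain ⟨θ, hθ⟩ := exists_equiv (F ∪ (F ×ˢ F).image (fun t => m0.1 t.1 t.2) ∪ α.support) i hi
  have hop : IsGroupOp (fun a b => θ.symm (θ a * θ b)) := by
    refine ⟨fun a b c => by simp [mul_assoc], θ.symm 1, fun a => by simp, fun a => ?_⟩
    exact ⟨θ.symm (θ a)⁻¹, by simp, by simp⟩
  let m1 : GroupSpace := ⟨_, hop⟩
  refine ⟨m1, ?_, ?_⟩
  · apply hF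
    intro a ha b hb
    change θ.symm (θ a * θ b) = m0.1 a b
    rw [Equiv.symm_apply_eq, hθ a (by simp [ha]), hθ b (by simp [hb]),
      hθ (m0.1 a b) (by
        rw [Finset.mem_union, Finset.mem_union]
        exact Or.inl (Or.inr (Finset.mem_image.2 ⟨(a, b), Finset.mem_product.2 ⟨ha, hb⟩, rfl⟩)))]
    exact (map_mul (emb (Gp m0)) (el m0 a) (el m0 b)).symm
  · let e : Gp m1 ≃* HH (Gp m0) :=
      { toFun := fun a => θ a
        invFun := fun h => θ.symm h
        left_inv := fun a => θ.symm_apply_apply a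
        right_inv := fun h => θ.apply_symm_apply h
        map_mul' := fun a b => θ.apply_symm_apply _ }
    let E : MonoidAlgebra ℚ (Gp m1) ≃+* MonoidAlgebra ℚ (HH (Gp m0)) :=
      MonoidAlgebra.mapDomainRingEquiv ℚ e
    have hE : E (up m1 α) = MonoidAlgebra.mapDomainRingHom ℚ (emb (Gp m0)) (up m0 α) := by
      rw [up_eq_sum, up_eq_sum, map_sum, map_sum]
      refine Finset.sum_congr rfl fun a ha => ?_
      have h3 : E (MonoidAlgebra.single (el m1 a) (α a)) = MonoidAlgebra.single (θ a) (α a) :=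
        MonoidAlgebra.mapDomainRingEquiv_single e (α a) (el m1 a)
      have h4 : MonoidAlgebra.mapDomainRingHom ℚ (emb (Gp m0))
          (MonoidAlgebra.single (el m0 a) (α a)) = MonoidAlgebra.single (i a) (α a) :=
        MonoidAlgebra.mapDomain_single
      rw [h3, h4, hθ a (by rw [Finset.mem_union]; exact Or.inr ha)]
    refine ⟨E.symm δ, E.symm γ, ?_, ?_, ?_⟩
    · intro h
      apply hγ
      have h1 := congrArg E h
      rwa [E.apply_symm_apply, map_zero] at h1
    · have h1 := hδ.map E.symm.toRingHom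
      rw [← hE] at h1
      have h2 : E.symm.toRingHom (E (up m1 α)) = up m1 α := E.symm_apply_apply _
      rw [h2] at h1
      exact h1
    · rw [← map_mul, hδγ]

theorem gen_mem {R : Type} [Ring R] {a x : R} (h : Gen a x) (ha : a ∈ Ring.jacobson R) :
    x ∈ Ring.jacobson R := by
  induction h with
  | base => exact ha
  | sub _ _ h1 h2 => exact (Ring.jacobson R).sub_mem h1 h2
  | left r _ h1 => exact (Ring.jacobson R).mul_mem_left r h1
  | right r _ h1 => exact Ideal.mul_mem_right r (Ring.jacobson R) h1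

theorem fixed_eq_zero {R : Type} [Ring R] {δ γ : R} (h : δ ∈ Ring.jacobson R) (h1 : δ * γ = γ) :
    γ = 0 := by
  rw [← Ideal.jacobson_bot, Ideal.mem_jacobson_iff] at h
  obtain ⟨z, hz⟩ := h (-1)
  rw [Ideal.mem_bot] at hz
  have h2 : z * (1 - δ) = 1 := by
    have : z * (1 - δ) = (z * -1 * δ + z - 1) + 1 := by
      rw [mul_sub, mul_one, mul_neg, mul_one, neg_mul]; abel
    rw [this, hz, zero_add]
  have h3 : (1 - δ) * γ = 0 := by rw [sub_mul, one_mul, h1, sub_self]
  rw [← one_mul γ, ← h2, mul_assoc, h3, mul_zero]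

/-- The set of the groups `G` for which the Jacobson radical of `ℚ[G]` vanishes is comeager. -/
theorem result :
    {m : GroupSpace | Ring.jacobson (MonoidAlgebra ℚ (Gp m)) = ⊥} ∈ residual GroupSpace := by
  have h1 : ∀ α : {α : ℕ →₀ ℚ // α ≠ 0}, U α.1 ∈ residual GroupSpace := fun α =>
    residual_of_dense_open (isOpen_U α.1) (dense_U α.2)
  have h2 : ⋂ α : {α : ℕ →₀ ℚ // α ≠ 0}, U α.1 ∈ residual GroupSpace :=
    countable_iInter_mem.2 h1
  refine Filter.mem_of_superset h2 fun m hm => ?_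
  change Ring.jacobson (MonoidAlgebra ℚ (Gp m)) = ⊥
  rw [eq_bot_iff]
  intro x hx
  by_contra hx0
  have hx0' : dn m x ≠ 0 := by
    intro h
    apply hx0
    rw [Ideal.mem_bot, ← up_dn m x, h]
    rfl
  obtain ⟨δ, γ, hγ, hδ, hδγ⟩ := Set.mem_iInter.1 hm ⟨dn m x, hx0'⟩
  exact hγ (fixed_eq_zero (gen_mem hδ hx) hδγ)

end Pool.Agent.Results.MP_146d92_al.Generic
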